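import Pool.Agent.H77.T6.Cst
import Pool.Agent.H88.T6.Fin

/-!
# T6 Siz (helper77): the sizes of the slices

All sizes are congruent modulo `9` (`card_mod`), divisible by `3` and at least `24`, their sum is `729`, the sum of their squares is `20412 - |K[3]|`: either `K[3] = K` and all sizes are `27`, or at least
`18` slices have `24` points, and `|3 K|` is `3` or `9`.
-/

set_option autoImplicit false

namespace Pool.Agent.H77.T6

open Finset Pool.Agent.H88.Pl Pool.Agent.H16.RB Pool.Agent.H38.RX Pool.Agent.H38.T35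
  Pool.Agent.H16.T6
open scoped Classical

private theorem Siz_all {ι : Type*} (I : Finset ι) (s : ι → ℕ) (hI : I.card = 27)
    (hsum : ∑ i ∈ I, s i = 729) (h27 : ∀ i ∈ I, 27 ≤ s i) : ∀ i ∈ I, s i = 27 := by
  have h : ∑ i ∈ I, 27 = ∑ i ∈ I, s i := by
    rw [hsum, sum_const, hI]
    norm_num
  intro i hi
  exact ((sum_eq_sum_iff_of_le h27).1 h i hi).symm

private theorem Siz_low {ι : Type*} (I : Finset ι) (s : ι → ℕ) (hI : I.card = 27)
    (hsum : ∑ i ∈ I, s i = 729) (h24 : ∀ i ∈ I, 24 ≤ s i)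
    (hc : ∀ i ∈ I, ∀ j ∈ I, s i % 9 = s j % 9) (h3 : ∀ i ∈ I, 3 ∣ s i)
    (hne : ∃ i ∈ I, s i ≠ 27) : ∀ i ∈ I, s i % 9 = 6 := by
  obtain ⟨i1, hi1, h1⟩ : ∃ i ∈ I, s i < 27 := by
    by_contra hcon
    push Not at hcon
    obtain ⟨i, hi, h⟩ := hne
    exact h (Siz_all I s hI hsum hcon i hi)
  intro i hi
  have h4 := hc i hi i1 hi1
  have h5 := h24 i1 hi1
  have h6 := h3 i1 hi1
  omega

private theorem Siz_sq {ι : Type*} (I : Finset ι) (s : ι → ℕ) (hI : I.card = 27)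
    (hsum : ∑ i ∈ I, s i = 729) (hsq : ∑ i ∈ I, s i ^ 2 = 19683) : ∀ i ∈ I, s i = 27 := by
  have h : ∑ i ∈ I, ((s i : ℤ) - 27) ^ 2 = 0 := by
    have h1 : ∀ i ∈ I, ((s i : ℤ) - 27) ^ 2 = (s i : ℤ) ^ 2 - 54 * (s i : ℤ) + 729 := by
      intro i _
      ring
    rw [sum_congr rfl h1, sum_add_distrib, sum_sub_distrib, ← mul_sum, sum_const, hI]
    have h2 : ∑ i ∈ I, (s i : ℤ) ^ 2 = 19683 := by exact_mod_cast hsq
    have h3 : ∑ i ∈ I, (s i : ℤ) = 729 := by exact_mod_cast hsum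
    rw [h2, h3]
    norm_num
  rw [sum_eq_zero_iff_of_nonneg fun i _ => sq_nonneg _] at h
  intro i hi
  have h4 := pow_eq_zero_iff (two_ne_zero) |>.1 (h i hi)
  omega

private theorem Siz_count {ι : Type*} (I : Finset ι) (s : ι → ℕ) (hI : I.card = 27)
    (hsum : ∑ i ∈ I, s i = 729) (h24 : ∀ i ∈ I, 24 ≤ s i) (h6 : ∀ i ∈ I, s i % 9 = 6) :
    18 ≤ (I.filter fun i => s i = 24).card := by
  have h1 : ∑ i ∈ I, (24 + if s i = 24 then 0 else 9) ≤ ∑ i ∈ I, s i := by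
    refine sum_le_sum fun i hi => ?_
    have h2 := h24 i hi
    have h3 := h6 i hi
    split_ifs <;> omega
  rw [sum_add_distrib, sum_const, hI, hsum, sum_ite, sum_const_zero, zero_add, sum_const,
    smul_eq_mul, smul_eq_mul] at h1
  have h4 := card_filter_add_card_filter_not (s := I) (fun i => s i = 24)
  rw [hI] at h4
  omega

private theorem Siz_no {ι : Type*} (I : Finset ι) (s : ι → ℕ) (hI : I.card = 27)
    (hsum : ∑ i ∈ I, s i = 729) (h24 : ∀ i ∈ I, 24 ≤ s i) (h6 : ∀ i ∈ I, s i % 9 = 6)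
    (hsq : ∑ i ∈ I, s i ^ 2 = 20385) : False := by
  have h1 : ∀ i ∈ I, s i = 24 + 9 * ((s i - 24) / 9) := by
    intro i hi
    have h2 := h24 i hi
    have h3 := h6 i hi
    omega
  have h2 : ∑ i ∈ I, s i = 648 + 9 * ∑ i ∈ I, ((s i - 24) / 9) := by
    rw [sum_congr rfl h1, sum_add_distrib, sum_const, hI, ← mul_sum]
    norm_num
  have h3 : ∑ i ∈ I, s i ^ 2 = 15552 + 432 * ∑ i ∈ I, ((s i - 24) / 9) +
      81 * ∑ i ∈ I, ((s i - 24) / 9) ^ 2 := by
    have h4 : ∀ i ∈ I, s i ^ 2 = 576 + 432 * ((s i - 24) / 9) + 81 * ((s i - 24) / 9) ^ 2 := by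
      intro i hi
      obtain ⟨j, hj⟩ : ∃ j, j = (s i - 24) / 9 := ⟨_, rfl⟩
      have h5 := h1 i hi
      rw [← hj] at h5 ⊢
      rw [h5]
      ring
    rw [sum_congr rfl h4, sum_add_distrib, sum_add_distrib, sum_const, hI, ← mul_sum, ← mul_sum]
    norm_num
  omega

/-- the sizes of the slices -/
theorem siz {H K : Type*} [AddCommGroup H] [AddCommGroup K] [Fintype H] [Fintype K] {f : H → K}
    {μ : (H × K →+ ZMod 3) → (H × K →+ ZMod 3) → (H × K →+ ZMod 3) → (H × K →+ ZMod 3) → ZMod 3}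
    (E : Sit6 f μ) (h24 : ∀ v ∈ PP 3 H K, 24 ≤ (sl 3 f v).card) :
    ((TT K).card = 1 ∧ ∀ v ∈ PP 3 H K, (sl 3 f v).card = 27) ∨
      (((TT K).card = 3 ∨ (TT K).card = 9) ∧
        18 ≤ ((PP 3 H K).filter fun v => (sl 3 f v).card = 24).card) := by
  have hI := (Pool.Agent.H88.T6.sx E).card_PP
  have hsum := (Pool.Agent.H88.T6.sx E).sum_card
  have hsq := (Pool.Agent.H88.T6.sx E).sum_sq
  have h3 : ∀ v ∈ PP 3 H K, 3 ∣ (sl 3 f v).card := by
    intro v hv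
    have h := (E.slc v hv).k3 [] (by simp)
    rw [← ZMod.natCast_eq_zero_iff]
    simpa using h
  have hc : ∀ v ∈ PP 3 H K, ∀ w ∈ PP 3 H K, (sl 3 f v).card % 9 = (sl 3 f w).card % 9 :=
    fun v hv w hw => card_mod E.hH f E.hf E.h9 E.hP h3 hv hw
  have main : (ZZ K).card ≠ 729 → ∀ v ∈ PP 3 H K, (sl 3 f v).card % 9 = 6 := by
    intro hz
    refine Siz_low (PP 3 H K) (fun v => (sl 3 f v).card) hI hsum h24 hc h3 ?_
    by_contra hcon
    push Not at hcon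
    have h4 : ∑ v ∈ PP 3 H K, (sl 3 f v).card ^ 2 = 19683 := by
      rw [sum_congr rfl fun v hv => by rw [hcon v hv], sum_const, hI]
      norm_num
    omega
  rcases Pool.Agent.H88.T6.card_K E with ⟨h1, h2, -⟩ | ⟨h1, h2, -⟩ | ⟨h1, h2, -⟩ | ⟨h1, h2, -⟩
  · left
    refine ⟨h1, ?_⟩
    exact Siz_sq (PP 3 H K) (fun v => (sl 3 f v).card) hI hsum (by
      show ∑ v ∈ PP 3 H K, (sl 3 f v).card ^ 2 = 19683
      omega)
  · right
    exact ⟨Or.inl h1, Siz_count (PP 3 H K) (fun v => (sl 3 f v).card) hI hsum h24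
      (main (by omega))⟩
  · right
    exact ⟨Or.inr h1, Siz_count (PP 3 H K) (fun v => (sl 3 f v).card) hI hsum h24
      (main (by omega))⟩
  · exact (Siz_no (PP 3 H K) (fun v => (sl 3 f v).card) hI hsum h24 (main (by omega)) (by
      show ∑ v ∈ PP 3 H K, (sl 3 f v).card ^ 2 = 20385
      omega)).elim

end Pool.Agent.H77.T6
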