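import Pool.Agent.H77.T6.QB
import Pool.Agent.H38.T35.Key3

/-!
# T6 BK (helper77): sums of products of binomial coefficients of homomorphisms to `ZMod 9`

The proof of `key3` (Pool/Agent/H38/T35/Key3.lean) with q-binomials: `∏ t < m, (z ^ A - z ^ t) = qb z A m * ∏ t < m, (z ^ m - z ^ t)`, `qb z A m = A.choose m` modulo `z - 1`,
and the last product divides `(z - 1) ^ (m + 2 * (m / 3))` for `m ≤ 8`.
-/

set_option autoImplicit false

namespace Pool.Agent.H77.T6

open Finset NumberField Pool.Agent.H88.Pl Pool.Agent.H16.RB Pool.Agent.H16.RB2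
open scoped Classical

private instance BK_three : Fact (Nat.Prime 3) := ⟨Nat.prime_three⟩

section

variable {L : Type*} [Field L] [NumberField L] [IsCyclotomicExtension {3 ^ (1 + 1)} ℚ L] {ζ : L}

/-- cost of one factor -/
private theorem BK_one (hζ : IsPrimitiveRoot ζ (3 ^ (1 + 1))) (s : ℕ) (hs : 1 ≤ s) (hs8 : s ≤ 8) :
    (hζ.toInteger ^ s - 1) ∣ (hζ.toInteger - 1) ^ (if 3 ∣ s then 3 else 1) := by
  have hz : IsPrimitiveRoot hζ.toInteger (3 ^ 2) := hζ.toInteger_isPrimitiveRoot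
  have h9 : hζ.toInteger ^ 9 = 1 := hz.pow_eq_one
  have h3 : (hζ.toInteger ^ 3 - 1) ∣ (hζ.toInteger - 1) ^ 3 := by
    have h := cost_lin (p := 3) (k := 1) (L := L) hζ
    rwa [pow_one] at h
  have key : ∀ k : ℕ, (hζ.toInteger ^ s - 1) ∣ (hζ.toInteger ^ s) ^ k - 1 := by
    intro k
    have h := sub_dvd_pow_sub_pow (hζ.toInteger ^ s) 1 k
    rwa [one_pow] at h
  have red : ∀ k j : ℕ, s * k = 9 * (s * k / 9) + j → (hζ.toInteger ^ s) ^ k = hζ.toInteger ^ j := by
    intro k j hk
    rw [← pow_mul, hk, pow_add, pow_mul, h9, one_pow, one_mul]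
  interval_cases s
  · rw [if_neg (by decide), pow_one, pow_one]
  · rw [if_neg (by decide), pow_one]
    have h := key 5
    rwa [red 5 1 (by norm_num), pow_one] at h
  · rw [if_pos (by decide)]
    exact h3
  · rw [if_neg (by decide), pow_one]
    have h := key 7
    rwa [red 7 1 (by norm_num), pow_one] at h
  · rw [if_neg (by decide), pow_one]
    have h := key 2
    rwa [red 2 1 (by norm_num), pow_one] at h
  · rw [if_pos (by decide)]
    have h := key 2
    rw [red 2 3 (by norm_num)] at h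
    exact h.trans h3
  · rw [if_neg (by decide), pow_one]
    have h := key 4
    rwa [red 4 1 (by norm_num), pow_one] at h
  · rw [if_neg (by decide), pow_one]
    have h := key 8
    rwa [red 8 1 (by norm_num), pow_one] at h

/-- cost of a binomial coefficient -/
theorem cost_binom (hζ : IsPrimitiveRoot ζ (3 ^ (1 + 1))) (m : ℕ) (hm : m ≤ 8) :
    (∏ t ∈ range m, (hζ.toInteger ^ m - hζ.toInteger ^ t)) ∣
      (hζ.toInteger - 1) ^ (m + 2 * (m / 3)) := by
  have hz : IsPrimitiveRoot hζ.toInteger (3 ^ 2) := hζ.toInteger_isPrimitiveRoot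
  have hu : IsUnit hζ.toInteger := hz.isUnit (by norm_num)
  have h1 : ∏ t ∈ range m, (hζ.toInteger ^ m - hζ.toInteger ^ t) =
      (∏ t ∈ range m, hζ.toInteger ^ t) * ∏ t ∈ range m, (hζ.toInteger ^ (m - t) - 1) := by
    rw [← prod_mul_distrib]
    refine prod_congr rfl fun t ht => ?_
    rw [mem_range] at ht
    rw [mul_sub, mul_one, ← pow_add]
    congr 2
    omega
  have h2 : IsUnit (∏ t ∈ range m, hζ.toInteger ^ t) := by
    rw [prod_pow_eq_pow_sum]
    exact hu.pow _
  rw [h1, h2.mul_left_dvd]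
  have h3 : ∏ t ∈ range m, (hζ.toInteger ^ (m - t) - 1) ∣
      ∏ t ∈ range m, (hζ.toInteger - 1) ^ (if 3 ∣ (m - t) then 3 else 1) := by
    refine prod_dvd_prod_of_dvd _ _ fun t ht => ?_
    rw [mem_range] at ht
    exact BK_one hζ (m - t) (by omega) (by omega)
  refine h3.trans ?_
  rw [prod_pow_eq_pow_sum]
  have h4 : (∑ t ∈ range m, if 3 ∣ (m - t) then 3 else 1) = m + 2 * (m / 3) := by
    interval_cases m <;> decide
  rw [h4]

end

/-- sums of products of binomial coefficients of homomorphisms to `ZMod 9` and of affine functionals to `ZMod 3` -/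
theorem bin_kills {r : ℕ} {H K : Type*} [AddCommGroup H] [AddCommGroup K] [Fintype H] [Fintype K]
    (hH : Fintype.card H = 3 ^ r) (f : H → K) (hf : IsPlanar f) {J : Type} [Fintype J]
    (a : J → (H × K →+ ZMod 9)) (m : J → ℕ) (hm : ∀ j, m j ≤ 8)
    (Ls : List ((H × K →+ ZMod 3) × ZMod 3))
    (hn : ∑ j, (m j + 2 * (m j / 3)) + 3 * Ls.length < 3 * r) :
    ∑ x, ((∏ j, ((a j (gr f x)).val.choose (m j)) : ℕ) : ZMod 3) *
      (Ls.map fun l => l.1 (gr f x) - l.2).prod = 0 := by
  have hnz : 3 ^ (1 + 1) ≠ 0 := by norm_num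
  have : NeZero (3 ^ (1 + 1)) := ⟨hnz⟩
  let L := CyclotomicField (3 ^ (1 + 1)) ℚ
  have hL : IsCyclotomicExtension {3 ^ (1 + 1)} ℚ L := CyclotomicField.isCyclotomicExtension _ _
  have : NumberField L := IsCyclotomicExtension.numberField {3 ^ (1 + 1)} ℚ L
  let ζ : L := IsCyclotomicExtension.zeta (3 ^ (1 + 1)) ℚ L
  have hζ : IsPrimitiveRoot ζ (3 ^ (1 + 1)) := IsCyclotomicExtension.zeta_spec _ _ _
  have hzp : IsPrimitiveRoot hζ.toInteger (3 ^ (1 + 1)) := hζ.toInteger_isPrimitiveRoot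
  set z : 𝓞 L := hζ.toInteger with hz
  have hz1 : z ^ (3 ^ (1 + 1)) = 1 := hzp.pow_eq_one
  have hM : 2 * (3 * r) = r * (3 ^ 1 * (3 - 1)) := by ring
  -- fine functions
  let fine : (H → 𝓞 L) → Prop := fun F =>
    ∀ b : H × K →+ ZMod (3 ^ (1 + 1)), (z - 1) ^ (3 * r) ∣ ∑ x, z ^ (b (gr f x)).val * F x
  have fine_one : fine (fun _ => 1) := by
    intro b
    simp only [mul_one]
    exact val_sum (by norm_num) hH f hf hζ b (3 * r) hM
  have fine_step : ∀ (F : H → 𝓞 L) (b : H × K →+ ZMod (3 ^ (1 + 1))) (c : 𝓞 L), fine F →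
      fine (fun x => F x * (z ^ (b (gr f x)).val - c)) := by
    intro F b c hF b'
    have h1 : ∑ x, z ^ (b' (gr f x)).val * (F x * (z ^ (b (gr f x)).val - c)) =
        ∑ x, z ^ ((b' + b) (gr f x)).val * F x - c * ∑ x, z ^ (b' (gr f x)).val * F x := by
      rw [mul_sum, ← sum_sub_distrib]
      refine sum_congr rfl fun x _ => ?_
      rw [AddMonoidHom.add_apply, Key.pow_val_add' hz1]
      ring
    rw [h1]
    exact dvd_sub (hF _) ((hF _).mul_left c)
  have fine_prod : ∀ (T : Finset ℕ) (b : H × K →+ ZMod (3 ^ (1 + 1)))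
      (F : H → 𝓞 L), fine F →
      fine (fun x => F x * ∏ t ∈ T, (z ^ (b (gr f x)).val - z ^ t)) := by
    intro T b F hF
    induction T using Finset.induction_on with
    | empty => simpa using hF
    | insert t T ht ih =>
      have := fine_step _ b (z ^ t) ih
      refine cast ?_ this
      congr 1
      funext x
      rw [prod_insert ht]
      ring
  have fine_digits : ∀ T : Finset J, fine (fun x => ∏ j ∈ T, ∏ t ∈ range (m j),
      (z ^ (a j (gr f x)).val - z ^ t)) := by
    intro T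
    induction T using Finset.induction_on with
    | empty => simpa using fine_one
    | insert j T hj ih =>
      have := fine_prod (range (m j)) (a j) _ ih
      refine cast ?_ this
      congr 1
      funext x
      rw [prod_insert hj, mul_comm]
  set η : 𝓞 L := z ^ (3 ^ 1) with hηdef
  have hbl : ∀ l : H × K →+ ZMod 3, ∃ b : H × K →+ ZMod (3 ^ (1 + 1)), ∀ g,
      z ^ (b g).val = η ^ (l g).val := by
    intro l
    obtain ⟨b, hb⟩ := Key.exists_hom (n := 3) (m := 3 ^ 1) (N := 3 ^ (1 + 1)) (pow_succ 3 1).symm l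
    exact ⟨b, hb (𝓞 L) z hz1⟩
  have fine_list : ∀ Ls : List ((H × K →+ ZMod 3) × ZMod 3), ∀ F, fine F →
      fine (fun x => F x * (Ls.map fun l => η ^ (l.1 (gr f x)).val - η ^ l.2.val).prod) := by
    intro Ls
    induction Ls with
    | nil => intro F hF; simpa using hF
    | cons l Ls ih =>
      intro F hF
      obtain ⟨b', hb'⟩ := hbl l.1
      have h1 := ih _ (fine_step F b' (η ^ l.2.val) hF)
      refine cast ?_ h1
      congr 1
      funext x
      rw [List.map_cons, List.prod_cons, hb']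
      ring
  have hfin := fine_list Ls _ (fine_digits univ) 0
  have hππ : (z - 1) ∣ ((3 : ℕ) : 𝓞 L) := pi_dvd_p hζ
  have hlin : ∀ (l : (H × K →+ ZMod 3) × ZMod 3) x, ∃ u : 𝓞 L,
      η ^ (l.1 (gr f x)).val - η ^ l.2.val = (η - 1) * u ∧
      (z - 1) ∣ u - (((l.1 (gr f x)).val : 𝓞 L) - (l.2.val : 𝓞 L)) := by
    intro l x
    exact lin_factor η (z - 1) (sub_one_dvd_pow_sub_one z _) _ _
  choose w hw1 hw2 using hlin
  set C : 𝓞 L := (∏ j, ∏ t ∈ range (m j), (z ^ (m j) - z ^ t)) * (η - 1) ^ Ls.length with hC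
  set U : H → 𝓞 L := fun x => (∏ j, qb z (a j (gr f x)).val (m j)) *
    (Ls.map fun l => w l x).prod with hU
  have hprod : ∀ x, (∏ j, ∏ t ∈ range (m j), (z ^ (a j (gr f x)).val - z ^ t)) *
      (Ls.map fun l => η ^ (l.1 (gr f x)).val - η ^ l.2.val).prod = C * U x := by
    intro x
    have h1 : (∏ j, ∏ t ∈ range (m j), (z ^ (a j (gr f x)).val - z ^ t)) =
      (∏ j, ∏ t ∈ range (m j), (z ^ (m j) - z ^ t)) * ∏ j, qb z (a j (gr f x)).val (m j) := by
      rw [← prod_mul_distrib]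
      refine prod_congr rfl fun j _ => ?_
      rw [qb_prod, mul_comm]
    have h2 : ∀ Ls : List ((H × K →+ ZMod 3) × ZMod 3),
        (Ls.map fun l => η ^ (l.1 (gr f x)).val - η ^ l.2.val).prod =
        (η - 1) ^ Ls.length * (Ls.map fun l => w l x).prod := by
      intro Ls
      induction Ls with
      | nil => simp
      | cons l Ls ih =>
        rw [List.map_cons, List.prod_cons, ih, hw1 l x, List.map_cons, List.prod_cons,
          List.length_cons]
        ring
    rw [h1, h2, hC, hU]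
    ring
  have hdvd : (z - 1) ^ (3 * r) ∣ C * ∑ x, U x := by
    rw [mul_sum]
    refine cast ?_ hfin
    congr 1
    refine sum_congr rfl fun x _ => ?_
    rw [AddMonoidHom.zero_apply, ZMod.val_zero, pow_zero, one_mul]
    exact hprod x
  obtain ⟨cost, hcost⟩ : ∃ c, c = ∑ j, (m j + 2 * (m j / 3)) + 3 * Ls.length := ⟨_, rfl⟩
  have hCc : C ∣ (z - 1) ^ cost := by
    have h1 : (∏ j, ∏ t ∈ range (m j), (z ^ (m j) - z ^ t)) ∣
        (z - 1) ^ (∑ j, (m j + 2 * (m j / 3))) := by
      rw [← prod_pow_eq_pow_sum]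
      exact prod_dvd_prod_of_dvd _ _ fun j _ => cost_binom hζ (m j) (hm j)
    have h4 : (η - 1) ^ Ls.length ∣ (z - 1) ^ (3 * Ls.length) := by
      rw [pow_mul]
      refine pow_dvd_pow_of_dvd ?_ _
      have h5 := cost_lin (p := 3) (k := 1) hζ
      rw [pow_one] at h5
      rw [hηdef, pow_one]
      exact h5
    have e := pow_add (z - 1) (∑ j, (m j + 2 * (m j / 3))) (3 * Ls.length)
    rw [hC, hcost, e]
    exact mul_dvd_mul h1 h4
  have hMc : cost < 3 * r := by rw [hcost]; exact hn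
  have hπU : (z - 1) ∣ ∑ x, U x := by
    refine cancel (p := 3) (c := C) (C := cost * 3) hζ hdvd ?_ ?_
    · rw [pow_mul]
      exact pow_dvd_pow_of_dvd hCc 3
    · rw [mul_comm]
      exact Nat.mul_lt_mul_of_pos_left hMc (by norm_num)
  have hcong : ∀ x, (z - 1) ∣ U x - ((((∏ j, ((a j (gr f x)).val.choose (m j)) : ℕ) : ℤ) *
      (Ls.map fun l => ((l.1 (gr f x)).val : ℤ) - (l.2.val : ℤ)).prod : ℤ) : 𝓞 L) := by
    intro x
    have hmk : ∀ a b : 𝓞 L, (z - 1) ∣ a - b ↔
        Ideal.Quotient.mk (Ideal.span {z - 1}) a = Ideal.Quotient.mk (Ideal.span {z - 1}) b := by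
      intro a b
      rw [Ideal.Quotient.eq, Ideal.mem_span_singleton]
    rw [hmk, hU]
    have e2 : ∀ Ls : List ((H × K →+ ZMod 3) × ZMod 3),
        Ideal.Quotient.mk (Ideal.span {z - 1}) (Ls.map fun l => w l x).prod =
        Ideal.Quotient.mk (Ideal.span {z - 1})
          (((Ls.map fun l => ((l.1 (gr f x)).val : ℤ) - (l.2.val : ℤ)).prod : ℤ) : 𝓞 L) := by
      intro Ls
      induction Ls with
      | nil => simp
      | cons l Ls ih =>
        rw [List.map_cons, List.prod_cons, map_mul, ih, (hmk _ _).1 (hw2 l x), List.map_cons,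
          List.prod_cons, ← map_mul]
        push_cast
        ring_nf
    simp only [map_mul, map_prod, e2, Int.cast_mul, Int.cast_natCast, Nat.cast_prod, Int.cast_prod]
    congr 1
    exact prod_congr rfl fun j _ => (hmk _ _).1 (qb_mod z _ _)
  have hsumdvd : (z - 1) ∣ ((∑ x, (((∏ j, ((a j (gr f x)).val.choose (m j)) : ℕ) : ℤ) *
      (Ls.map fun l => ((l.1 (gr f x)).val : ℤ) - (l.2.val : ℤ)).prod) : ℤ) : 𝓞 L) := by
    have h1 : (z - 1) ∣ ∑ x, (U x - ((((∏ j, ((a j (gr f x)).val.choose (m j)) : ℕ) : ℤ) *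
      (Ls.map fun l => ((l.1 (gr f x)).val : ℤ) - (l.2.val : ℤ)).prod : ℤ) : 𝓞 L)) :=
      dvd_sum fun x _ => hcong x
    rw [sum_sub_distrib] at h1
    have h2 := (dvd_sub_right hπU).1 h1
    rw [Int.cast_sum]
    exact h2
  have hdvdp := dvd_of_pi_dvd hζ _ hsumdvd
  have hz0 := (ZMod.intCast_zmod_eq_zero_iff_dvd _ 3).2 hdvdp
  rw [Int.cast_sum] at hz0
  refine Eq.trans (sum_congr rfl fun x _ => ?_) hz0
  have e3 : ∀ Ls : List ((H × K →+ ZMod 3) × ZMod 3),
      (((Ls.map fun l => ((l.1 (gr f x)).val : ℤ) - (l.2.val : ℤ)).prod : ℤ) : ZMod 3) =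
      (Ls.map fun l => l.1 (gr f x) - l.2).prod := by
    intro Ls
    induction Ls with
    | nil => simp
    | cons l Ls ih =>
      rw [List.map_cons, List.prod_cons, Int.cast_mul, ih, List.map_cons, List.prod_cons]
      push_cast
      rw [ZMod.natCast_zmod_val, ZMod.natCast_zmod_val]
  rw [Int.cast_mul, e3, Int.cast_natCast]

end Pool.Agent.H77.T6
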