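import Pool.Agent.H77.T6.NF
import Pool.Agent.H38.T35.Sep9
import Pool.Agent.H38.RX.Defs

/-!
# T6 Cst (helper77): all slices have the same size modulo `9`

Three homomorphisms `a, b, c : G →+ ZMod 9` whose first digits determine `3 • g`; the indicator of a slice is a product of three polynomials of degree `2` in these digits, with coefficients in `ZMod 9`;
all products of at most `5` digits sum to `0` modulo `9` (`dig_nine`), so that `s_v = u * W` with `W` the sum of the product of the squares and `u` congruent to `2` modulo `3`.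
-/

set_option autoImplicit false

namespace Pool.Agent.H77.T6

open Finset Pool.Agent.H88.Pl Pool.Agent.H16.RB Pool.Agent.H38.RX Pool.Agent.H38.T35
open scoped Classical

private theorem Cst_sq {X A : Type*} [Fintype X] (D : A → X → ZMod 9)
    (hk : ∀ l : List A, l.length ≤ 5 → ∑ x, (l.map fun a => D a x).prod = 0) :
    ∀ (l1 : List (A × ZMod 9 × ZMod 9 × ZMod 9)) (l2 : List A),
      2 * l1.length + l2.length ≤ 5 →
      ∑ x, (l1.map fun q => D q.1 x ^ 2).prod * (l2.map fun a => D a x).prod = 0 := by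
  intro l1
  induction l1 with
  | nil =>
    intro l2 hl
    simpa using hk l2 (by simpa using hl)
  | cons q l1 ih =>
    intro l2 hl
    rw [List.length_cons] at hl
    have h := ih (q.1 :: q.1 :: l2) (by rw [List.length_cons, List.length_cons]; omega)
    refine Eq.trans (sum_congr rfl fun x _ => ?_) h
    rw [List.map_cons, List.prod_cons, List.map_cons, List.prod_cons, List.map_cons,
      List.prod_cons]
    ring

private theorem Cst_exp {X A : Type*} [Fintype X] (D : A → X → ZMod 9)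
    (hk : ∀ l : List A, l.length ≤ 5 → ∑ x, (l.map fun a => D a x).prod = 0) :
    ∀ (l1 : List (A × ZMod 9 × ZMod 9 × ZMod 9)) (l2 : List A),
      2 * l1.length + l2.length ≤ 6 →
      ∑ x, (l1.map fun q => q.2.1 * D q.1 x ^ 2 + q.2.2.1 * D q.1 x + q.2.2.2).prod *
        (l2.map fun a => D a x).prod =
      (l1.map fun q => q.2.1).prod *
        ∑ x, (l1.map fun q => D q.1 x ^ 2).prod * (l2.map fun a => D a x).prod := by
  intro l1
  induction l1 with
  | nil =>
    intro l2 _
    simp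
  | cons q l1 ih =>
    intro l2 hl
    rw [List.length_cons] at hl
    have h1 := ih (q.1 :: q.1 :: l2) (by rw [List.length_cons, List.length_cons]; omega)
    have h2 := ih (q.1 :: l2) (by rw [List.length_cons]; omega)
    have h3 := ih l2 (by omega)
    have h2' := Cst_sq D hk l1 (q.1 :: l2) (by rw [List.length_cons]; omega)
    have h3' := Cst_sq D hk l1 l2 (by omega)
    rw [h2', mul_zero] at h2
    rw [h3', mul_zero] at h3
    have e1 : ∑ x, ((q :: l1).map fun q => q.2.1 * D q.1 x ^ 2 + q.2.2.1 * D q.1 x +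
        q.2.2.2).prod * (l2.map fun a => D a x).prod =
        q.2.1 * (∑ x, (l1.map fun q => q.2.1 * D q.1 x ^ 2 + q.2.2.1 * D q.1 x + q.2.2.2).prod *
          ((q.1 :: q.1 :: l2).map fun a => D a x).prod) +
        q.2.2.1 * (∑ x, (l1.map fun q => q.2.1 * D q.1 x ^ 2 + q.2.2.1 * D q.1 x +
          q.2.2.2).prod * ((q.1 :: l2).map fun a => D a x).prod) +
        q.2.2.2 * (∑ x, (l1.map fun q => q.2.1 * D q.1 x ^ 2 + q.2.2.1 * D q.1 x +
          q.2.2.2).prod * (l2.map fun a => D a x).prod) := by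
      rw [mul_sum, mul_sum, mul_sum, ← sum_add_distrib, ← sum_add_distrib]
      refine sum_congr rfl fun x _ => ?_
      rw [List.map_cons, List.prod_cons, List.map_cons, List.prod_cons, List.map_cons,
        List.prod_cons]
      ring
    rw [e1, h1, h2, h3, mul_zero, mul_zero, add_zero, add_zero, List.map_cons, List.prod_cons,
      mul_assoc]
    congr 2
    refine sum_congr rfl fun x _ => ?_
    rw [List.map_cons, List.prod_cons, List.map_cons, List.prod_cons, List.map_cons,
      List.prod_cons]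
    ring

private theorem Cst_ind (i : ℕ) (hi : i < 3) : ∃ u w d : ZMod 9, (u = 5 ∨ u = 8) ∧
    ∀ t : ℕ, t < 3 → u * (t : ZMod 9) ^ 2 + w * (t : ZMod 9) + d = if t = i then 1 else 0 := by
  interval_cases i
  · refine ⟨5, 3, 1, Or.inl rfl, fun t ht => ?_⟩
    interval_cases t <;> decide
  · refine ⟨8, 2, 0, Or.inr rfl, fun t ht => ?_⟩
    interval_cases t <;> decide
  · refine ⟨5, 4, 0, Or.inl rfl, fun t ht => ?_⟩
    interval_cases t <;> decide

private theorem Cst_unit (u u' u'' W : ZMod 9) (h : u = 5 ∨ u = 8) (h' : u' = 5 ∨ u' = 8)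
    (h'' : u'' = 5 ∨ u'' = 8) (h3 : 3 * (u * (u' * (u'' * 1)) * W) = 0) :
    u * (u' * (u'' * 1)) * W = - W := by
  rcases h with rfl | rfl <;> rcases h' with rfl | rfl <;> rcases h'' with rfl | rfl <;>
    revert h3 <;> revert W <;> decide

private theorem Cst_three (s t : ZMod 9) : 3 * s = 3 * t ↔ s.val % 3 = t.val % 3 := by
  revert s t
  decide

theorem card_const {H K : Type*} [AddCommGroup H] [AddCommGroup K] [Fintype H] [Fintype K]
    (hH : Fintype.card H = 3 ^ 6) (f : H → K) (hf : IsPlanar f) (h9 : ∀ g : H × K, 9 • g = 0)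
    (hP : Nat.card (Set.range fun g : H × K => 3 • g) = 3 ^ 3)
    (h3 : ∀ v ∈ PP 3 H K, 3 ∣ (sl 3 f v).card) :
    ∃ W : ZMod 9, ∀ v ∈ PP 3 H K, ((sl 3 f v).card : ZMod 9) = W := by
  obtain ⟨g1, hg1⟩ : ∃ g : H × K, 3 • g ≠ 0 := by
    by_contra hcon
    push Not at hcon
    have h : (Set.range fun g : H × K => 3 • g) = {0} := by
      ext v
      rw [Set.mem_range, Set.mem_singleton_iff]
      constructor
      · rintro ⟨g, rfl⟩
        exact hcon g
      · rintro rfl
        exact ⟨0, smul_zero _⟩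
    rw [h] at hP
    simp at hP
  obtain ⟨a, ha⟩ := sep9 h9 (3 • g1) hg1
  obtain ⟨b, c, hsep⟩ := three_homs h9 hP a ⟨g1, ha⟩
  let D : (H × K →+ ZMod 9) → H → ZMod 9 := fun a x => (((a (gr f x)).val % 3 : ℕ) : ZMod 9)
  have hk : ∀ l : List (H × K →+ ZMod 9), l.length ≤ 5 →
      ∑ x, (l.map fun a => D a x).prod = 0 := by
    intro l hl
    simpa using dig_nine hH f hf l [] (by simpa using hl)
  refine ⟨- ∑ x, (D a x ^ 2 * (D b x ^ 2 * (D c x ^ 2 * 1))) * 1, fun v hv => ?_⟩
  have h3v := h3 v hv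
  rw [PP, mem_filter] at hv
  obtain ⟨_, g0, hg0⟩ := hv
  obtain ⟨u, w, d, hu, hi⟩ := Cst_ind ((a g0).val % 3) (Nat.mod_lt _ (by norm_num))
  obtain ⟨u', w', d', hu', hj⟩ := Cst_ind ((b g0).val % 3) (Nat.mod_lt _ (by norm_num))
  obtain ⟨u'', w'', d'', hu'', hl⟩ := Cst_ind ((c g0).val % 3) (Nat.mod_lt _ (by norm_num))
  have hexp := Cst_exp D hk [(a, u, w, d), (b, u', w', d'), (c, u'', w'', d'')] []
    (by simp)
  simp only [List.map_cons, List.map_nil, List.prod_cons, List.prod_nil] at hexp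
  have hiff : ∀ x, 3 • gr f x = v ↔ ((a (gr f x)).val % 3 = (a g0).val % 3 ∧
      (b (gr f x)).val % 3 = (b g0).val % 3 ∧ (c (gr f x)).val % 3 = (c g0).val % 3) := by
    intro x
    rw [← Cst_three, ← Cst_three, ← Cst_three]
    have hm : ∀ (e : H × K →+ ZMod 9) (g : H × K), e (3 • g) = 3 * e g := by
      intro e g
      rw [map_nsmul, nsmul_eq_mul]
      rfl
    constructor
    · intro h
      rw [← hg0] at h
      refine ⟨?_, ?_, ?_⟩
      · rw [← hm, ← hm, h]
      · rw [← hm, ← hm, h]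
      · rw [← hm, ← hm, h]
    · rintro ⟨e1, e2, e3⟩
      have h0 : 3 • (gr f x - g0) = 0 := by
        apply hsep
        · rw [hm, map_sub, mul_sub, e1, sub_self]
        · rw [hm, map_sub, mul_sub, e2, sub_self]
        · rw [hm, map_sub, mul_sub, e3, sub_self]
      rw [smul_sub, sub_eq_zero] at h0
      rw [h0, hg0]
  have hcard : ((sl 3 f v).card : ZMod 9) = ∑ x, (u * D a x ^ 2 + w * D a x + d) *
      ((u' * D b x ^ 2 + w' * D b x + d') * ((u'' * D c x ^ 2 + w'' * D c x + d'') * 1)) * 1 := by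
    rw [sl, card_filter, Nat.cast_sum]
    refine sum_congr rfl fun x _ => ?_
    rw [show u * D a x ^ 2 + w * D a x + d = _ from hi _ (Nat.mod_lt _ (by norm_num)),
      show u' * D b x ^ 2 + w' * D b x + d' = _ from hj _ (Nat.mod_lt _ (by norm_num)),
      show u'' * D c x ^ 2 + w'' * D c x + d'' = _ from hl _ (Nat.mod_lt _ (by norm_num))]
    by_cases hx : 3 • gr f x = v
    · obtain ⟨e1, e2, e3⟩ := (hiff x).1 hx
      rw [if_pos hx, if_pos e1, if_pos e2, if_pos e3]
      simp
    · rw [if_neg hx]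
      by_cases e1 : (a (gr f x)).val % 3 = (a g0).val % 3
      · by_cases e2 : (b (gr f x)).val % 3 = (b g0).val % 3
        · have e3 : ¬ (c (gr f x)).val % 3 = (c g0).val % 3 := fun e3 => hx ((hiff x).2 ⟨e1, e2, e3⟩)
          rw [if_neg e3]
          simp
        · rw [if_neg e2]
          simp
      · rw [if_neg e1]
        simp
  rw [hcard, hexp]
  refine Cst_unit u u' u'' _ hu hu' hu'' ?_
  rw [← hexp, ← hcard]
  obtain ⟨n, hn⟩ := h3v
  rw [hn, Nat.cast_mul, ← mul_assoc]
  have h9' : (3 : ZMod 9) * ((3 : ℕ) : ZMod 9) = 0 := by decide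
  rw [h9', zero_mul]

theorem card_mod {H K : Type*} [AddCommGroup H] [AddCommGroup K] [Fintype H] [Fintype K]
    (hH : Fintype.card H = 3 ^ 6) (f : H → K) (hf : IsPlanar f) (h9 : ∀ g : H × K, 9 • g = 0)
    (hP : Nat.card (Set.range fun g : H × K => 3 • g) = 3 ^ 3)
    (h3 : ∀ v ∈ PP 3 H K, 3 ∣ (sl 3 f v).card) {v w : H × K} (hv : v ∈ PP 3 H K)
    (hw : w ∈ PP 3 H K) : (sl 3 f v).card % 9 = (sl 3 f w).card % 9 := by
  obtain ⟨W, hW⟩ := card_const hH f hf h9 hP h3
  have h := (hW v hv).trans (hW w hw).symm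
  exact (ZMod.natCast_eq_natCast_iff' _ _ 9).1 h

end Pool.Agent.H77.T6
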