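import Pool.Agent.H16.T6.Defs

/-!
# T6 KerA (helper77): many functionals are constant on six points; sums over a fibre
-/

set_option autoImplicit false

namespace Pool.Agent.H77.T6

open Finset Pool.Agent.H16.T6
open scoped Classical

variable {L X ι : Type*} [AddCommGroup L]

private theorem KerA_ind : ∀ a c : ZMod 3, (if a = c then (1 : ZMod 3) else 0) = 1 - (a - c) ^ 2 := by
  decide

/-- sums over the fibre of `f` -/
theorem sum_fibre (S : Finset X) (f : X → ZMod 3) (c : ZMod 3) (g : X → ZMod 3) :
    ∑ x ∈ S.filter (fun x => f x = c), g x =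
      (1 - c ^ 2) * ∑ x ∈ S, g x + 2 * c * ∑ x ∈ S, f x * g x - ∑ x ∈ S, f x * f x * g x := by
  rw [sum_filter, mul_sum, mul_sum, ← sum_add_distrib, ← sum_sub_distrib]
  refine sum_congr rfl fun x _ => ?_
  have h := KerA_ind (f x) c
  by_cases hx : f x = c
  · rw [if_pos hx]
    rw [if_pos hx] at h
    linear_combination (g x) * h
  · rw [if_neg hx]
    rw [if_neg hx] at h
    linear_combination (g x) * h

/-- on six points on which every functional has sum zero, at least nine functionals are constant -/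
theorem nine_const [Fintype L] (hL : Fintype.card L = 729) (y : X → L →+ ZMod 3) (F : Finset X)
    (hF : F.card = 6) (h0 : ∀ m : L, ∑ x ∈ F, y x m = 0) :
    9 ≤ ((univ : Finset L).filter fun m => ∃ c, ∀ x ∈ F, y x m = c).card := by
  obtain ⟨e⟩ : Nonempty (Fin 6 ≃ F) := by
    rw [← hF]
    exact ⟨F.equivFin.symm⟩
  set φ : L →+ (Fin 4 → ZMod 3) :=
    { toFun := fun m i => y (e i.castSucc.castSucc) m - y (e 5) m
      map_zero' := by funext i; simp
      map_add' := by
        intro a b
        funext i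
        simp only [map_add, Pi.add_apply]
        ring } with hφ
  have h1 : Nat.card φ.ker * φ.ker.index = Nat.card L := AddSubgroup.card_mul_index _
  have h2 : φ.ker.index ≤ 81 := by
    rw [AddSubgroup.index_ker]
    calc Nat.card φ.range ≤ Nat.card (Fin 4 → ZMod 3) :=
          Nat.card_le_card_of_injective (fun z : φ.range => (z : Fin 4 → ZMod 3))
            Subtype.coe_injective
      _ = 81 := by
          rw [Nat.card_eq_fintype_card, Fintype.card_fun, ZMod.card, Fintype.card_fin]
          norm_num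
  rw [Nat.card_eq_fintype_card (α := L), hL] at h1
  have h3 : 9 ≤ Nat.card φ.ker := by
    by_contra hlt
    have h4 : Nat.card φ.ker ≤ 8 := by omega
    have h5 := Nat.mul_le_mul h4 h2
    omega
  refine h3.trans ?_
  rw [Nat.card_eq_fintype_card, Fintype.card_subtype]
  refine card_le_card fun m hm => ?_
  rw [mem_filter] at hm ⊢
  refine ⟨mem_univ _, y (e 5) m, ?_⟩
  have hk : ∀ i : Fin 4, y (e i.castSucc.castSucc) m - y (e 5) m = 0 := fun i =>
    congrFun ((AddMonoidHom.mem_ker).1 hm.2) i
  have hs : ∑ i : Fin 6, y (e i) m = 0 := by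
    rw [← h0 m, ← sum_coe_sort F (fun x => y x m)]
    exact Equiv.sum_comp e (fun x : F => y x m)
  rw [Fin.sum_univ_six] at hs
  have k0 := hk 0
  have k1 := hk 1
  have k2 := hk 2
  have k3 := hk 3
  have e0 : ((0 : Fin 4).castSucc.castSucc : Fin 6) = 0 := rfl
  have e1 : ((1 : Fin 4).castSucc.castSucc : Fin 6) = 1 := rfl
  have e2 : ((2 : Fin 4).castSucc.castSucc : Fin 6) = 2 := rfl
  have e3 : ((3 : Fin 4).castSucc.castSucc : Fin 6) = 3 := rfl
  rw [e0] at k0
  rw [e1] at k1
  rw [e2] at k2
  rw [e3] at k3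
  have k4 : y (e 4) m - y (e 5) m = 0 := by
    have h6 : (6 : ZMod 3) = 0 := by decide
    linear_combination hs - k0 - k1 - k2 - k3 - y (e 5) m * h6
  intro x hx
  obtain ⟨i, hi⟩ := e.surjective ⟨x, hx⟩
  have hx' : x = e i := by rw [hi]
  rw [hx']
  fin_cases i
  · exact sub_eq_zero.1 k0
  · exact sub_eq_zero.1 k1
  · exact sub_eq_zero.1 k2
  · exact sub_eq_zero.1 k3
  · exact sub_eq_zero.1 k4
  · rfl

end Pool.Agent.H77.T6
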