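import Pool.Agent.H77.T6.BK

/-!
# T6 NF (helper77): products of at most five homomorphisms to `ZMod 9` (and of their first digits) sum to `0` modulo `9`
-/

set_option autoImplicit false

namespace Pool.Agent.H77.T6

open Finset NumberField Pool.Agent.H88.Pl Pool.Agent.H16.RB Pool.Agent.H16.RB2
open scoped Classical

private instance NF_three : Fact (Nat.Prime 3) := ⟨Nat.prime_three⟩

private theorem NF_geom {O : Type*} [CommRing O] (z : O) {A : ℕ} (hA : A < 9) :
    z ^ A - 1 = (z - 1) * ∑ k : Fin 8, (A.choose ((k : ℕ) + 1) : O) * (z - 1) ^ (k : ℕ) := by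
  rw [geom_binom, Fin.sum_univ_eq_sum_range (fun k => (A.choose (k + 1) : O) * (z - 1) ^ k) 8]
  congr 1
  refine sum_subset (fun k hk => ?_) fun k _ hk => ?_
  · rw [mem_range] at hk ⊢
    omega
  · rw [mem_range, not_lt] at hk
    rw [Nat.choose_eq_zero_of_lt (by omega), Nat.cast_zero, zero_mul]

/-- the cost of the binomials which occur below -/
private theorem NF_cost {J : Type} [Fintype J] (hJ : Fintype.card J ≤ 5) (k : J → ℕ)
    (hk : ∑ j, k j ≤ 6) : ∑ j, ((k j + 1) + 2 * ((k j + 1) / 3)) < 18 := by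
  have h1 : ∑ j, (k j + 1) ≤ 11 := by
    rw [sum_add_distrib, sum_const, card_univ, smul_eq_mul, mul_one]
    omega
  have h2 : 3 * ∑ j, ((k j + 1) / 3) ≤ ∑ j, (k j + 1) := by
    rw [mul_sum]
    exact sum_le_sum fun j _ => Nat.mul_div_le _ _
  rw [sum_add_distrib, ← mul_sum]
  omega

theorem prod_nine {H K : Type*} [AddCommGroup H] [AddCommGroup K] [Fintype H] [Fintype K]
    (hH : Fintype.card H = 3 ^ 6) (f : H → K) (hf : IsPlanar f) {J : Type} [Fintype J]
    (hJ : Fintype.card J ≤ 5) (a : J → (H × K →+ ZMod 9)) :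
    9 ∣ ∑ x, ∏ j, (a j (gr f x)).val := by
  have hnz : 3 ^ (1 + 1) ≠ 0 := by norm_num
  have : NeZero (3 ^ (1 + 1)) := ⟨hnz⟩
  let L := CyclotomicField (3 ^ (1 + 1)) ℚ
  have hL : IsCyclotomicExtension {3 ^ (1 + 1)} ℚ L := CyclotomicField.isCyclotomicExtension _ _
  have : NumberField L := IsCyclotomicExtension.numberField {3 ^ (1 + 1)} ℚ L
  let ζ : L := IsCyclotomicExtension.zeta (3 ^ (1 + 1)) ℚ L
  have hζ : IsPrimitiveRoot ζ (3 ^ (1 + 1)) := IsCyclotomicExtension.zeta_spec _ _ _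
  have hzp : IsPrimitiveRoot hζ.toInteger (3 ^ (1 + 1)) := hζ.toInteger_isPrimitiveRoot
  have hprime : Prime (hζ.toInteger - 1) := hζ.zeta_sub_one_prime
  set z : 𝓞 L := hζ.toInteger with hz
  have hz1 : z ^ (3 ^ (1 + 1)) = 1 := hzp.pow_eq_one
  have h36 : Associated ((3 : ℕ) : 𝓞 L) ((z - 1) ^ 6) := Cyc.assoc_p (p := 3) (k := 1) hζ
  -- fine functions
  let fine : (H → 𝓞 L) → Prop := fun F =>
    ∀ b : H × K →+ ZMod (3 ^ (1 + 1)), (z - 1) ^ 18 ∣ ∑ x, z ^ (b (gr f x)).val * F x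
  have fine_one : fine (fun _ => 1) := by
    intro b
    simp only [mul_one]
    exact val_sum (by norm_num) hH f hf hζ b 18 (by norm_num)
  have fine_step : ∀ (F : H → 𝓞 L) (b : H × K →+ ZMod (3 ^ (1 + 1))) (c : 𝓞 L), fine F →
      fine (fun x => F x * (z ^ (b (gr f x)).val - c)) := by
    intro F b c hF b'
    have h1 : ∑ x, z ^ (b' (gr f x)).val * (F x * (z ^ (b (gr f x)).val - c)) =
        ∑ x, z ^ ((b' + b) (gr f x)).val * F x - c * ∑ x, z ^ (b' (gr f x)).val * F x := by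
      rw [mul_sum, ← sum_sub_distrib]
      refine sum_congr rfl fun x _ => ?_
      rw [AddMonoidHom.add_apply, Key.pow_val_add' hz1]
      ring
    rw [h1]
    exact dvd_sub (hF _) ((hF _).mul_left c)
  have fine_prod : ∀ T : Finset J, fine (fun x => ∏ j ∈ T, (z ^ (a j (gr f x)).val - 1)) := by
    intro T
    induction T using Finset.induction_on with
    | empty => simpa using fine_one
    | insert j T hj ih =>
      have := fine_step _ (a j) 1 ih
      refine cast ?_ this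
      congr 1
      funext x
      rw [prod_insert hj, mul_comm]
  have hfin := fine_prod univ 0
  -- coefficients
  set c : (J → Fin 8) → ℕ := fun κ => ∑ x, ∏ j, (a j (gr f x)).val.choose ((κ j : ℕ) + 1) with hc
  have hexp : ∀ x, ∏ j, (z ^ (a j (gr f x)).val - 1) = (z - 1) ^ (Fintype.card J) *
      ∑ κ : J → Fin 8, ((∏ j, (a j (gr f x)).val.choose ((κ j : ℕ) + 1) : ℕ) : 𝓞 L) *
        (z - 1) ^ (∑ j, (κ j : ℕ)) := by
    intro x
    have h1 : ∀ j, z ^ (a j (gr f x)).val - 1 = (z - 1) * ∑ k : Fin 8,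
        (((a j (gr f x)).val.choose ((k : ℕ) + 1) : ℕ) : 𝓞 L) * (z - 1) ^ (k : ℕ) :=
      fun j => NF_geom z (ZMod.val_lt (n := 9) _)
    rw [prod_congr rfl fun j _ => h1 j, prod_mul_distrib, prod_const, card_univ,
      prod_univ_sum, Fintype.piFinset_univ]
    congr 1
    refine sum_congr rfl fun κ _ => ?_
    rw [prod_mul_distrib, prod_pow_eq_pow_sum, Nat.cast_prod]
  have hT : (z - 1) ^ 18 ∣ (z - 1) ^ (Fintype.card J) *
      ∑ κ : J → Fin 8, (c κ : 𝓞 L) * (z - 1) ^ (∑ j, (κ j : ℕ)) := by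
    refine cast ?_ hfin
    congr 1
    have h2 : ∀ κ : J → Fin 8, (c κ : 𝓞 L) * (z - 1) ^ (∑ j, (κ j : ℕ)) =
        ∑ x, ((∏ j, (a j (gr f x)).val.choose ((κ j : ℕ) + 1) : ℕ) : 𝓞 L) *
          (z - 1) ^ (∑ j, (κ j : ℕ)) := by
      intro κ
      rw [hc, ← sum_mul, Nat.cast_sum]
    rw [sum_congr rfl fun κ _ => h2 κ, sum_comm, mul_sum]
    refine sum_congr rfl fun x _ => ?_
    rw [AddMonoidHom.zero_apply, ZMod.val_zero, pow_zero, one_mul]
    exact hexp x
  have hT7 : (z - 1) ^ 7 ∣ ∑ κ : J → Fin 8, (c κ : 𝓞 L) * (z - 1) ^ (∑ j, (κ j : ℕ)) := by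
    have h3 : (z - 1) ^ 18 = (z - 1) ^ (Fintype.card J) * (z - 1) ^ (18 - Fintype.card J) := by
      rw [← pow_add]
      congr 1
      omega
    rw [h3] at hT
    have h4 := (mul_dvd_mul_iff_left (pow_ne_zero _ hprime.ne_zero)).1 hT
    exact (pow_dvd_pow _ (by omega)).trans h4
  have hterm : ∀ κ : J → Fin 8, κ ≠ 0 →
      (z - 1) ^ 7 ∣ (c κ : 𝓞 L) * (z - 1) ^ (∑ j, (κ j : ℕ)) := by
    intro κ hκ
    by_cases h6 : ∑ j, (κ j : ℕ) ≤ 6
    · have h5 : 1 ≤ ∑ j, (κ j : ℕ) := by
        by_contra hcon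
        apply hκ
        funext j
        have h7 : ∑ j, (κ j : ℕ) = 0 := by omega
        rw [sum_eq_zero_iff] at h7
        exact Fin.ext (h7 j (mem_univ _))
      have h8 := bin_kills (r := 6) hH f hf a (fun j => (κ j : ℕ) + 1)
        (fun j => by have := (κ j).2; omega) []
        (by have := NF_cost hJ (fun j => (κ j : ℕ)) h6; simpa using this)
      have h9 : 3 ∣ c κ := by
        rw [← ZMod.natCast_eq_zero_iff]
        rw [hc, Nat.cast_sum]
        refine Eq.trans (sum_congr rfl fun x _ => ?_) h8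
        rw [List.map_nil, List.prod_nil, mul_one]
      obtain ⟨d, hd⟩ := h9
      rw [hd, Nat.cast_mul, mul_comm, ← mul_assoc]
      refine Dvd.dvd.mul_right ?_ _
      have h10 : (z - 1) ^ 7 = (z - 1) ^ 1 * (z - 1) ^ 6 := by rw [← pow_add]
      rw [h10]
      exact mul_dvd_mul (pow_dvd_pow _ h5) h36.symm.dvd
    · exact (pow_dvd_pow _ (by omega)).mul_left _
  have hc0 : (z - 1) ^ 7 ∣ (c 0 : 𝓞 L) := by
    have h11 := add_sum_erase univ (fun κ : J → Fin 8 => (c κ : 𝓞 L) *
      (z - 1) ^ (∑ j, (κ j : ℕ))) (mem_univ 0)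
    rw [← h11] at hT7
    have h12 : (z - 1) ^ 7 ∣ ∑ κ ∈ univ.erase (0 : J → Fin 8), (c κ : 𝓞 L) *
        (z - 1) ^ (∑ j, (κ j : ℕ)) :=
      dvd_sum fun κ hκ => hterm κ (ne_of_mem_erase hκ)
    have h13 := (dvd_add_left h12).1 hT7
    simpa using h13
  have hc0' : c 0 = ∑ x, ∏ j, (a j (gr f x)).val := by
    rw [hc]
    refine sum_congr rfl fun x _ => prod_congr rfl fun j _ => ?_
    simp
  rw [← hc0']
  have h14 : 3 ∣ c 0 := by
    have h15 : (z - 1) ∣ (((c 0 : ℕ) : ℤ) : 𝓞 L) := by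
      rw [Int.cast_natCast]
      exact (dvd_pow_self _ (by norm_num)).trans hc0
    exact_mod_cast dvd_of_pi_dvd hζ _ h15
  obtain ⟨d, hd⟩ := h14
  have h16 : (z - 1) ∣ (((d : ℕ) : ℤ) : 𝓞 L) := by
    rw [Int.cast_natCast]
    rw [hd, Nat.cast_mul] at hc0
    have h17 : (z - 1) ^ 6 * (z - 1) ∣ (z - 1) ^ 6 * (d : 𝓞 L) := by
      rw [← pow_succ]
      exact hc0.trans (mul_dvd_mul_right h36.dvd _)
    exact (mul_dvd_mul_iff_left (pow_ne_zero _ hprime.ne_zero)).1 h17
  have h18 : 3 ∣ d := by exact_mod_cast dvd_of_pi_dvd hζ _ h16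
  obtain ⟨e, he⟩ := h18
  exact ⟨e, by rw [hd, he]; ring⟩

private theorem NF_digit (A : ZMod 9) :
    ((A.val % 3 : ℕ) : ZMod 9) = ((A.val : ℕ) : ZMod 9) - 3 * ((A.val / 3 : ℕ) : ZMod 9) := by
  revert A
  decide

private theorem NF_choose (A : ZMod 9) :
    ((A.val / 3 : ℕ) : ZMod 3) = ((A.val.choose 3 : ℕ) : ZMod 3) := by
  revert A
  decide

/-- first digits -/
theorem dig_nine {H K : Type*} [AddCommGroup H] [AddCommGroup K] [Fintype H] [Fintype K]
    (hH : Fintype.card H = 3 ^ 6) (f : H → K) (hf : IsPlanar f) :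
    ∀ l1 l2 : List (H × K →+ ZMod 9), l1.length + l2.length ≤ 5 →
      ∑ x, (l1.map fun a => (((a (gr f x)).val % 3 : ℕ) : ZMod 9)).prod *
        (l2.map fun a => (((a (gr f x)).val : ℕ) : ZMod 9)).prod = 0 := by
  intro l1
  induction l1 with
  | nil =>
    intro l2 hl
    have h1 := prod_nine hH f hf (J := Fin l2.length)
      (by rw [Fintype.card_fin]; simpa using hl) (fun j => l2[j])
    rw [← ZMod.natCast_eq_zero_iff, Nat.cast_sum] at h1
    refine Eq.trans (sum_congr rfl fun x _ => ?_) h1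
    rw [List.map_nil, List.prod_nil, one_mul, Nat.cast_prod]
    exact (Fin.prod_univ_fun_getElem l2
      fun a : H × K →+ ZMod 9 => (((a (gr f x)).val : ℕ) : ZMod 9)).symm
  | cons a l1 ih =>
    intro l2 hl
    rw [List.length_cons] at hl
    have h1 := ih (a :: l2) (by rw [List.length_cons]; omega)
    set N : ℕ := ∑ x, ((a (gr f x)).val / 3) * ((l1.map fun a => (a (gr f x)).val % 3).prod *
      (l2.map fun a => (a (gr f x)).val).prod) with hN
    have h2 : (N : ZMod 3) = 0 := by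
      have h3 := bin_kills (r := 6) hH f hf (J := Unit) (fun _ => a) (fun _ => 3)
        (fun _ => by norm_num)
        ((l1 ++ l2).map fun b => ((ZMod.castHom (show 3 ∣ 9 by norm_num) (ZMod 3)).toAddMonoidHom.comp b,
          (0 : ZMod 3)))
        (by
          rw [List.length_map, List.length_append]
          simp
          omega)
      rw [hN, Nat.cast_sum]
      refine Eq.trans (sum_congr rfl fun x _ => ?_) h3
      rw [Nat.cast_mul, NF_choose]
      congr 1
      · simp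
      · rw [Nat.cast_mul, List.map_append, List.map_append, List.prod_append]
        congr 1
        · rw [Nat.cast_list_prod, List.map_map, List.map_map]
          congr 1
          refine List.map_congr_left fun b _ => ?_
          simp [ZMod.natCast_mod]
        · rw [Nat.cast_list_prod, List.map_map, List.map_map]
          congr 1
          refine List.map_congr_left fun b _ => ?_
          simp
    have h4 : ((3 * N : ℕ) : ZMod 9) = 0 := by
      rw [ZMod.natCast_eq_zero_iff] at h2 ⊢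
      obtain ⟨d, hd⟩ := h2
      exact ⟨d, by rw [hd]; ring⟩
    have h5 : ∑ x, ((a :: l1).map fun a => (((a (gr f x)).val % 3 : ℕ) : ZMod 9)).prod *
        (l2.map fun a => (((a (gr f x)).val : ℕ) : ZMod 9)).prod =
        (∑ x, (l1.map fun a => (((a (gr f x)).val % 3 : ℕ) : ZMod 9)).prod *
        ((a :: l2).map fun a => (((a (gr f x)).val : ℕ) : ZMod 9)).prod) -
        ((3 * N : ℕ) : ZMod 9) := by
      rw [Nat.cast_mul, hN, Nat.cast_sum, mul_sum, ← sum_sub_distrib]
      refine sum_congr rfl fun x _ => ?_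
      rw [List.map_cons, List.prod_cons, List.map_cons, List.prod_cons, NF_digit, Nat.cast_mul,
        Nat.cast_mul, Nat.cast_list_prod, Nat.cast_list_prod, List.map_map, List.map_map]
      have h6 : (Nat.cast ∘ fun a : H × K →+ ZMod 9 => (a (gr f x)).val % 3) =
        fun a : H × K →+ ZMod 9 => (((a (gr f x)).val % 3 : ℕ) : ZMod 9) := rfl
      have h7 : (Nat.cast ∘ fun a : H × K →+ ZMod 9 => (a (gr f x)).val) =
        fun a : H × K →+ ZMod 9 => (((a (gr f x)).val : ℕ) : ZMod 9) := rfl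
      rw [h6, h7]
      push_cast
      ring
    rw [h5, h1, h4, sub_zero]

end Pool.Agent.H77.T6
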