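import Mathlib

/-!
# T6 QB (helper77): q-binomials
-/

set_option autoImplicit false

namespace Pool.Agent.H77.T6

open Finset

variable {O : Type*} [CommRing O]

/-- the q-binomial coefficient at `z` -/
def qb (z : O) : ℕ → ℕ → O
  | _, 0 => 1
  | 0, _ + 1 => 0
  | A + 1, m + 1 => qb z A m + z ^ (m + 1) * qb z A (m + 1)

theorem qb_zero (z : O) (A : ℕ) : qb z A 0 = 1 := by
  cases A <;> rfl

private theorem QB_rec (z : O) (A m : ℕ) :
    ∏ t ∈ range (m + 1), (z ^ (A + 1) - z ^ t) =
      (z ^ (A + 1) - 1) * z ^ m * ∏ t ∈ range m, (z ^ A - z ^ t) := by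
  rw [prod_range_succ']
  have h : ∏ k ∈ range m, (z ^ (A + 1) - z ^ (k + 1)) =
      z ^ m * ∏ t ∈ range m, (z ^ A - z ^ t) := by
    have h1 : z ^ m = ∏ _t ∈ range m, z := by rw [prod_const, card_range]
    rw [h1, ← prod_mul_distrib]
    exact prod_congr rfl fun t _ => by ring
  rw [h]
  ring

theorem qb_prod (z : O) (A m : ℕ) :
    ∏ t ∈ range m, (z ^ A - z ^ t) = qb z A m * ∏ t ∈ range m, (z ^ m - z ^ t) := by
  induction A generalizing m with
  | zero =>
    cases m with
    | zero => simp [qb]
    | succ m =>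
      rw [show qb z 0 (m + 1) = 0 from rfl, zero_mul, prod_range_succ']
      simp
  | succ A ih =>
    cases m with
    | zero => simp [qb]
    | succ m =>
      rw [show qb z (A + 1) (m + 1) = qb z A m + z ^ (m + 1) * qb z A (m + 1) from rfl, add_mul,
        mul_assoc, ← ih (m + 1), QB_rec z m m, QB_rec z A m, prod_range_succ]
      have h := ih m
      linear_combination ((z ^ (m + 1) - 1) * z ^ m) * h

theorem qb_mod (z : O) (A m : ℕ) : (z - 1) ∣ qb z A m - (A.choose m : O) := by
  induction A generalizing m with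
  | zero =>
    cases m with
    | zero => simp [qb]
    | succ m => simp [qb]
  | succ A ih =>
    cases m with
    | zero => simp [qb]
    | succ m =>
      have h1 : (z - 1) ∣ z ^ (m + 1) - 1 := by
        have := sub_dvd_pow_sub_pow z 1 (m + 1)
        rwa [one_pow] at this
      rw [show qb z (A + 1) (m + 1) = qb z A m + z ^ (m + 1) * qb z A (m + 1) from rfl,
        Nat.choose_succ_succ]
      have h2 : qb z A m + z ^ (m + 1) * qb z A (m + 1) -
          ((A.choose m + A.choose (m + 1) : ℕ) : O) =
          (qb z A m - (A.choose m : O)) + z ^ (m + 1) * (qb z A (m + 1) - (A.choose (m + 1) : O)) +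
            (z ^ (m + 1) - 1) * (A.choose (m + 1) : O) := by
        push_cast
        ring
      rw [h2]
      exact dvd_add (dvd_add (ih m) ((ih (m + 1)).mul_left _)) (h1.mul_right _)

/-- the geometric sum as a polynomial in `z - 1` -/
theorem geom_binom (z : O) (A : ℕ) :
    z ^ A - 1 = (z - 1) * ∑ k ∈ range A, (A.choose (k + 1) : O) * (z - 1) ^ k := by
  have h : z ^ A = ((z - 1) + 1) ^ A := by rw [sub_add_cancel]
  rw [h, add_pow, sum_range_succ', mul_sum]
  simp only [one_pow, mul_one, pow_zero, Nat.choose_zero_right, Nat.cast_one, add_sub_cancel_right]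
  exact sum_congr rfl fun k _ => by ring

end Pool.Agent.H77.T6
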